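import Mathlib

set_option autoImplicit false

namespace Pool.Agent.H.MP_bc5942_al

open Matrix MatrixGroups

/-- the field -/
abbrev F : Type := AlgebraicClosure (ZMod 2)
/-- the simple group -/
abbrev S : Type := SL(2, F)

theorem two : (2 : F) = 0 := by
  have := CharP.cast_eq_zero F 2
  exact_mod_cast this

theorem simple : IsSimpleGroup S := by
  classical
  obtain ⟨a, ha⟩ := Infinite.exists_notMem_finset ({0, 1} : Finset F)
  simp only [Finset.mem_insert, Finset.mem_singleton, not_or] at ha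
  have sq : ∀ r : F, r ^ 2 = 1 → r = 1 := by
    intro r hr
    have : (r - 1) ^ 2 = 0 := by linear_combination hr + (1 - r) * two
    exact sub_eq_zero.1 (pow_eq_zero_iff two_ne_zero |>.1 this)
  have h1 := Matrix.ProjectiveSpecialLinearGroup.rank_two_simple' (F := F)
    ⟨a, ha.1, fun h => ha.2 (sq a h)⟩
  have h2 : Subgroup.center S = ⊥ := by
    rw [eq_bot_iff]
    intro g hg
    obtain ⟨r, hr, hg⟩ := Matrix.SpecialLinearGroup.mem_center_iff.1 hg
    rw [Subgroup.mem_bot]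
    apply Subtype.ext
    rw [← hg, sq r (by simpa using hr)]
    simp
  exact ((QuotientGroup.quotientMulEquivOfEq h2).trans QuotientGroup.quotientBot).symm.isSimpleGroup

/-- the affine group -/
@[ext] structure G where
  /-- first coordinate -/
  x : F
  /-- second coordinate -/
  y : F
  /-- linear part -/
  g : S

theorem det1 (g : S) : g 0 0 * g 1 1 - g 0 1 * g 1 0 = 1 := by
  have := g.2
  rwa [det_fin_two] at this

theorem mul_ap (g h : S) (i j : Fin 2) : (g * h) i j = g i 0 * h 0 j + g i 1 * h 1 j := by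
  simp [Matrix.mul_apply, Fin.sum_univ_two]

noncomputable instance : Group G where
  mul a b := ⟨a.x * b.g 0 0 ^ 2 + a.y * b.g 1 0 ^ 2 + b.x,
    a.x * b.g 0 1 ^ 2 + a.y * b.g 1 1 ^ 2 + b.y, a.g * b.g⟩
  one := ⟨0, 0, 1⟩
  inv a := ⟨-(a.x * a.g⁻¹ 0 0 ^ 2 + a.y * a.g⁻¹ 1 0 ^ 2),
    -(a.x * a.g⁻¹ 0 1 ^ 2 + a.y * a.g⁻¹ 1 1 ^ 2), a.g⁻¹⟩
  mul_assoc a b c := by
    refine G.ext ?_ ?_ (mul_assoc _ _ _)
    · show (a.x * b.g 0 0 ^ 2 + a.y * b.g 1 0 ^ 2 + b.x) * c.g 0 0 ^ 2 +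
        (a.x * b.g 0 1 ^ 2 + a.y * b.g 1 1 ^ 2 + b.y) * c.g 1 0 ^ 2 + c.x =
        a.x * (b.g * c.g) 0 0 ^ 2 + a.y * (b.g * c.g) 1 0 ^ 2 +
          (b.x * c.g 0 0 ^ 2 + b.y * c.g 1 0 ^ 2 + c.x)
      simp only [mul_ap]
      linear_combination (-(a.x * b.g 0 0 * c.g 0 0 * b.g 0 1 * c.g 1 0) -
        a.y * b.g 1 0 * c.g 0 0 * b.g 1 1 * c.g 1 0) * two
    · show (a.x * b.g 0 0 ^ 2 + a.y * b.g 1 0 ^ 2 + b.x) * c.g 0 1 ^ 2 +
        (a.x * b.g 0 1 ^ 2 + a.y * b.g 1 1 ^ 2 + b.y) * c.g 1 1 ^ 2 + c.y =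
        a.x * (b.g * c.g) 0 1 ^ 2 + a.y * (b.g * c.g) 1 1 ^ 2 +
          (b.x * c.g 0 1 ^ 2 + b.y * c.g 1 1 ^ 2 + c.y)
      simp only [mul_ap]
      linear_combination (-(a.x * b.g 0 0 * c.g 0 1 * b.g 0 1 * c.g 1 1) -
        a.y * b.g 1 0 * c.g 0 1 * b.g 1 1 * c.g 1 1) * two
  one_mul a := by
    refine G.ext ?_ ?_ (one_mul _)
    · show 0 * _ + 0 * _ + a.x = a.x
      ring
    · show 0 * _ + 0 * _ + a.y = a.y
      ring
  mul_one a := by
    refine G.ext ?_ ?_ (mul_one _)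
    · show a.x * (1 : S) 0 0 ^ 2 + a.y * (1 : S) 1 0 ^ 2 + 0 = a.x
      simp
    · show a.x * (1 : S) 0 1 ^ 2 + a.y * (1 : S) 1 1 ^ 2 + 0 = a.y
      simp
  inv_mul_cancel a := by
    have hm : ∀ i j, (a.g⁻¹ * a.g) i j = (1 : S) i j := by rw [inv_mul_cancel]; simp
    have h00 := hm 0 0
    have h01 := hm 0 1
    have h10 := hm 1 0
    have h11 := hm 1 1
    rw [mul_ap] at h00 h01 h10 h11
    replace h00 := h00.trans (show _ = 1 by simp)
    replace h01 := h01.trans (show _ = 0 by simp)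
    replace h10 := h10.trans (show _ = 0 by simp)
    replace h11 := h11.trans (show _ = 1 by simp)
    refine G.ext ?_ ?_ (inv_mul_cancel _)
    · show -(a.x * a.g⁻¹ 0 0 ^ 2 + a.y * a.g⁻¹ 1 0 ^ 2) * a.g 0 0 ^ 2 +
        -(a.x * a.g⁻¹ 0 1 ^ 2 + a.y * a.g⁻¹ 1 1 ^ 2) * a.g 1 0 ^ 2 + a.x = 0
      linear_combination (-a.x * (a.g⁻¹ 0 0 * a.g 0 0 + a.g⁻¹ 0 1 * a.g 1 0 + 1)) * h00 -
        a.y * (a.g⁻¹ 1 0 * a.g 0 0 + a.g⁻¹ 1 1 * a.g 1 0) * h10 +
        (a.x * a.g⁻¹ 0 0 * a.g 0 0 * a.g⁻¹ 0 1 * a.g 1 0 +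
          a.y * a.g⁻¹ 1 0 * a.g 0 0 * a.g⁻¹ 1 1 * a.g 1 0) * two
    · show -(a.x * a.g⁻¹ 0 0 ^ 2 + a.y * a.g⁻¹ 1 0 ^ 2) * a.g 0 1 ^ 2 +
        -(a.x * a.g⁻¹ 0 1 ^ 2 + a.y * a.g⁻¹ 1 1 ^ 2) * a.g 1 1 ^ 2 + a.y = 0
      linear_combination (-a.x * (a.g⁻¹ 0 0 * a.g 0 1 + a.g⁻¹ 0 1 * a.g 1 1)) * h01 -
        a.y * (a.g⁻¹ 1 0 * a.g 0 1 + a.g⁻¹ 1 1 * a.g 1 1 + 1) * h11 +
        (a.x * a.g⁻¹ 0 0 * a.g 0 1 * a.g⁻¹ 0 1 * a.g 1 1 +
          a.y * a.g⁻¹ 1 0 * a.g 0 1 * a.g⁻¹ 1 1 * a.g 1 1) * two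

theorem mul_x (a b : G) : (a * b).x = a.x * b.g 0 0 ^ 2 + a.y * b.g 1 0 ^ 2 + b.x := rfl
theorem mul_y (a b : G) : (a * b).y = a.x * b.g 0 1 ^ 2 + a.y * b.g 1 1 ^ 2 + b.y := rfl
theorem mul_g (a b : G) : (a * b).g = a.g * b.g := rfl

/-- projection -/
noncomputable def pr : G →* S where
  toFun := G.g
  map_one' := rfl
  map_mul' _ _ := rfl

/-- first complement -/
noncomputable def iA : S →* G where
  toFun g := ⟨0, 0, g⟩
  map_one' := rfl
  map_mul' g h := G.ext (by simp [mul_x]) (by simp [mul_y]) rfl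

/-- second complement -/
noncomputable def iB : S →* G where
  toFun g := ⟨g 0 0 * g 1 0, g 0 1 * g 1 1, g⟩
  map_one' := G.ext (by simp; rfl) (by simp; rfl) rfl
  map_mul' g h := by
    have := det1 g
    refine G.ext ?_ ?_ rfl
    · simp only [mul_x, mul_ap]
      linear_combination (h 0 0 * h 1 0) * this + (g 0 1 * g 1 0 * h 0 0 * h 1 0) * two
    · simp only [mul_y, mul_ap]
      linear_combination (h 0 1 * h 1 1) * this + (g 0 1 * g 1 0 * h 0 1 * h 1 1) * two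

theorem fac (a : G) : ∃ u ∈ iA.range, ∃ v ∈ iB.range, a = u * v := by
  have : ∃ d : F, a.x * d ^ 2 - d = a.y := by
    by_cases hx : a.x = 0
    · exact ⟨-a.y, by simp [hx]⟩
    · obtain ⟨d, hd⟩ := IsAlgClosed.exists_root
        (Polynomial.C a.x * Polynomial.X ^ 2 + Polynomial.C (-1) * Polynomial.X +
          Polynomial.C (-a.y)) (by rw [Polynomial.degree_quadratic hx]; decide)
      refine ⟨d, ?_⟩
      simp only [Polynomial.IsRoot.def, Polynomial.eval_add, Polynomial.eval_mul,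
        Polynomial.eval_C, Polynomial.eval_pow, Polynomial.eval_X] at hd
      linear_combination hd
  obtain ⟨d, hd⟩ := this
  let h : S := ⟨!![a.x, a.x * d - 1; 1, d], by rw [det_fin_two_of]; ring⟩
  refine ⟨iA (a.g * h⁻¹), ⟨_, rfl⟩, iB h, ⟨_, rfl⟩, G.ext ?_ ?_ ?_⟩
  · simp [mul_x, iA, iB, h]
  · simp only [mul_y, iA, iB, h]
    simp
    linear_combination -hd
  · simp [mul_g, iA, iB]

theorem series (f : S →* G) (hf : ∀ g, pr (f g) = g) :
    ∃ n : ℕ, ∃ s : Fin (n+1) → Subgroup G, s 0 = ⊥ ∧ s (Fin.last n) = f.range ∧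
      ∀ i : Fin n, s i.castSucc ≤ s i.succ ∧
        ((s i.castSucc).subgroupOf (s i.succ)).Normal ∧
        (s i.castSucc).subgroupOf (s i.succ) ≠ ⊤ ∧
        ∀ M : Subgroup (s i.succ), M.Normal →
          (s i.castSucc).subgroupOf (s i.succ) ≤ M →
          M = (s i.castSucc).subgroupOf (s i.succ) ∨ M = ⊤ := by
  have hinj : Function.Injective f := fun a b h => by rw [← hf a, h, hf]
  have := simple
  have hs : IsSimpleGroup f.range := (f.ofInjective hinj).symm.isSimpleGroup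
  refine ⟨1, ![⊥, f.range], rfl, rfl, fun i => ?_⟩
  obtain rfl : i = 0 := Subsingleton.elim _ _
  show (⊥ : Subgroup G) ≤ f.range ∧ ((⊥ : Subgroup G).subgroupOf f.range).Normal ∧
    (⊥ : Subgroup G).subgroupOf f.range ≠ ⊤ ∧ ∀ M : Subgroup f.range, M.Normal →
      (⊥ : Subgroup G).subgroupOf f.range ≤ M → M = (⊥ : Subgroup G).subgroupOf f.range ∨ M = ⊤
  rw [Subgroup.bot_subgroupOf]
  exact ⟨bot_le, inferInstance, bot_ne_top, fun M hM _ => hM.eq_bot_or_eq_top⟩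

theorem step {H : Type} [Group H] (M K T : Subgroup H) [M.Normal]
    (hc : ∀ a ∈ M, ∀ b ∈ M, a * b = b * a) (h2 : ∀ a ∈ M, a * a = 1)
    (hn : (K.subgroupOf T).Normal)
    (hm : ∀ N : Subgroup T, N.Normal → K.subgroupOf T ≤ N → N = K.subgroupOf T ∨ N = ⊤)
    (hf : (M ⊓ K : Set H).Finite) : (M ⊓ T : Set H).Finite := by
  by_cases hle : ∀ a ∈ M, a ∈ T → a ∈ K
  · exact hf.subset fun a ha => ⟨ha.1, hle a ha.1 ha.2⟩
  push Not at hle
  obtain ⟨x, hxM, hxT, hxK⟩ := hle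
  let q := QuotientGroup.mk' (K.subgroupOf T)
  have htop : K.subgroupOf T ⊔ M.subgroupOf T = ⊤ := by
    refine (hm _ inferInstance le_sup_left).resolve_left fun h => hxK ?_
    have : (⟨x, hxT⟩ : T) ∈ K.subgroupOf T ⊔ M.subgroupOf T := Subgroup.mem_sup_right hxM
    rwa [h] at this
  have hsur : ∀ z, ∃ a : T, (a : H) ∈ M ∧ q a = z := by
    intro z
    obtain ⟨t, rfl⟩ := QuotientGroup.mk'_surjective _ z
    have : t ∈ K.subgroupOf T ⊔ M.subgroupOf T := htop ▸ Subgroup.mem_top t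
    obtain ⟨k, hk, a, ha, rfl⟩ := Subgroup.mem_sup_of_normal_right.1 this
    refine ⟨a, ha, ?_⟩
    rw [map_mul, show QuotientGroup.mk' (K.subgroupOf T) k = 1 from
      (QuotientGroup.eq_one_iff k).2 hk, one_mul]
  have hcomm : ∀ z w : T ⧸ K.subgroupOf T, z * w = w * z := by
    intro z w
    obtain ⟨a, ha, rfl⟩ := hsur z
    obtain ⟨b, hb, rfl⟩ := hsur w
    rw [← map_mul, ← map_mul]
    congr 1
    exact Subtype.ext (hc _ ha _ hb)
  have hnor : (Subgroup.zpowers (q ⟨x, hxT⟩)).Normal :=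
    ⟨fun n hn g => by rwa [hcomm g n, mul_inv_cancel_right]⟩
  have hz : (Subgroup.zpowers (q ⟨x, hxT⟩)).comap q = ⊤ := by
    refine (hm _ (hnor.comap q) fun k hk => ?_).resolve_left fun h => hxK ?_
    · rw [Subgroup.mem_comap, show q k = 1 from (QuotientGroup.eq_one_iff k).2 hk]
      exact Subgroup.one_mem _
    · have : (⟨x, hxT⟩ : T) ∈ (Subgroup.zpowers (q ⟨x, hxT⟩)).comap q := Subgroup.mem_zpowers _
      rwa [h] at this
  have hxx : q ⟨x, hxT⟩ * q ⟨x, hxT⟩ = 1 := by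
    rw [← map_mul, ← map_one q]
    congr 1
    exact Subtype.ext (h2 x hxM)
  refine (hf.union (hf.image (fun a => x * a))).subset fun a ha => ?_
  have h1 : (⟨a, ha.2⟩ : T) ∈ (Subgroup.zpowers (q ⟨x, hxT⟩)).comap q := hz ▸ Subgroup.mem_top _
  obtain ⟨n, hn⟩ := h1
  simp only at hn
  have hsq : q ⟨x, hxT⟩ ^ (2 : ℤ) = 1 := by rw [zpow_two, hxx]
  rcases Int.even_or_odd' n with ⟨k, rfl | rfl⟩
  · rw [_root_.zpow_mul, hsq, _root_.one_zpow] at hn
    exact Or.inl ⟨ha.1, (QuotientGroup.eq_one_iff (N := K.subgroupOf T) ⟨a, ha.2⟩).1 hn.symm⟩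
  · rw [_root_.zpow_add, _root_.zpow_mul, hsq, _root_.one_zpow, one_mul, zpow_one] at hn
    refine Or.inr ⟨x⁻¹ * a, ⟨M.mul_mem (M.inv_mem hxM) ha.1, ?_⟩, by simp⟩
    exact (QuotientGroup.eq (s := K.subgroupOf T) (a := ⟨x, hxT⟩) (b := ⟨a, ha.2⟩)).1 hn

theorem none : ¬ ∃ n : ℕ, ∃ s : Fin (n+1) → Subgroup G, s 0 = ⊥ ∧ s (Fin.last n) = ⊤ ∧
      ∀ i : Fin n, s i.castSucc ≤ s i.succ ∧
        ((s i.castSucc).subgroupOf (s i.succ)).Normal ∧
        (s i.castSucc).subgroupOf (s i.succ) ≠ ⊤ ∧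
        ∀ M : Subgroup (s i.succ), M.Normal →
          (s i.castSucc).subgroupOf (s i.succ) ≤ M →
          M = (s i.castSucc).subgroupOf (s i.succ) ∨ M = ⊤ := by
  rintro ⟨n, s, h0, hl, hs⟩
  have hk : ∀ a ∈ pr.ker, a.g = 1 := fun a ha => ha
  have key : ∀ i, (pr.ker ⊓ s i : Set G).Finite := by
    intro i
    induction i using Fin.induction with
    | zero => rw [h0]; exact (Set.finite_singleton 1).subset fun a ha => ha.2
    | succ i ih =>
      refine step pr.ker _ _ ?_ ?_ (hs i).2.1 (hs i).2.2.2 ih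
      · intro a ha b hb
        refine G.ext ?_ ?_ ?_
        · simp [mul_x, hk a ha, hk b hb, add_comm]
        · simp [mul_y, hk a ha, hk b hb, add_comm]
        · simp [mul_g, hk a ha, hk b hb]
      · intro a ha
        refine G.ext ?_ ?_ ?_
        · show _ = (0 : F)
          simp only [mul_x, hk a ha]
          simp
          linear_combination a.x * two
        · show _ = (0 : F)
          simp only [mul_y, hk a ha]
          simp
          linear_combination a.y * two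
        · show _ = (1 : S)
          simp [mul_g, hk a ha]
  have := key (Fin.last n)
  rw [hl] at this
  refine Set.infinite_of_injective_forall_mem (f := fun c : F => (⟨c, 0, 1⟩ : G)) ?_ ?_ this
  · intro c d h
    exact congrArg G.x h
  · intro c
    exact ⟨rfl, trivial⟩

end Pool.Agent.H.MP_bc5942_al
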